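import Mathlib

open Filter Topology Finset

namespace Pool.Agent.Results.MP_8a0632_lc.NotErdosUlam

/-- `I` is an ideal on `ω`: closed under finite unions and subsets, proper, and containing
all finite sets. -/
structure IsIdeal (I : Set (Set ℕ)) : Prop where
  union_mem : ∀ A B : Set ℕ, A ∈ I → B ∈ I → A ∪ B ∈ I
  subset_mem : ∀ A B : Set ℕ, A ∈ I → B ⊆ A → B ∈ I
  univ_notMem : Set.univ ∉ I
  finite_mem : ∀ A : Set ℕ, A.Finite → A ∈ I

/-- The density zero ideal `Z`. -/
def densityZero : Set (Set ℕ) :=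
  {A | Tendsto (fun n : ℕ => ((A ∩ Set.Iio n).ncard : ℝ) / (n : ℝ)) atTop (𝓝 0)}

/-- The weights allowed in the definition of Erdos-Ulam ideals. -/
structure IsEUWeight (f : ℕ → ℝ) : Prop where
  nonneg : ∀ i, 0 ≤ f i
  sum_tendsto : Tendsto (fun n : ℕ => ∑ i ∈ range n, f i) atTop atTop
  ratio_tendsto : Tendsto (fun n : ℕ => f n / ∑ i ∈ range (n + 1), f i) atTop (𝓝 0)

/-- The ideal `EU_f`. -/
def erdosUlam (f : ℕ → ℝ) : Set (Set ℕ) :=
  {A | Tendsto (fun n : ℕ => (∑ i ∈ range n, A.indicator f i) / ∑ i ∈ range n, f i)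
    atTop (𝓝 0)}

/-- `I` is an Erdos-Ulam ideal. -/
def IsErdosUlam (I : Set (Set ℕ)) : Prop := ∃ f : ℕ → ℝ, IsEUWeight f ∧ I = erdosUlam f

/-- Finite-to-one functions. -/
def FiniteToOne (φ : ℕ → ℕ) : Prop := ∀ n : ℕ, (φ ⁻¹' {n}).Finite

/-- The Rudin-Blass order. -/
def RudinBlassLE (I J : Set (Set ℕ)) : Prop :=
  ∃ φ : ℕ → ℕ, FiniteToOne φ ∧ ∀ A : Set ℕ, A ∈ I ↔ φ ⁻¹' A ∈ J

/-- Rudin-Blass equivalence. -/
def RudinBlassEquiv (I J : Set (Set ℕ)) : Prop := RudinBlassLE I J ∧ RudinBlassLE J I

/-! ### Block densities -/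

open Classical in
/-- number of elements of `A` in the dyadic block `[2^k, 2^(k+1))` -/
noncomputable def blk (A : Set ℕ) (k : ℕ) : ℕ := Nat.count (fun t => 2 ^ k + t ∈ A) (2 ^ k)

open Classical in
theorem ncard_eq_count (A : Set ℕ) (n : ℕ) :
    (A ∩ Set.Iio n).ncard = Nat.count (fun t => t ∈ A) n := by
  rw [Nat.count_eq_card_filter_range, ← Set.ncard_coe_finset]
  congr 1
  ext x
  simp [and_comm]

open Classical in
theorem count_pow_succ (A : Set ℕ) (k : ℕ) :
    Nat.count (fun t => t ∈ A) (2 ^ (k + 1)) = Nat.count (fun t => t ∈ A) (2 ^ k) + blk A k := by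
  have h : 2 ^ (k + 1) = 2 ^ k + 2 ^ k := by ring
  rw [h, Nat.count_add]
  rfl

theorem mem_densityZero_iff (A : Set ℕ) :
    A ∈ densityZero ↔ Tendsto (fun k : ℕ => (blk A k : ℝ) / 2 ^ k) atTop (𝓝 0) := by
  classical
  unfold densityZero
  simp only [Set.mem_ofPred_eq, ncard_eq_count]
  constructor
  · intro h
    have h1 : Tendsto (fun k : ℕ => 2 * ((Nat.count (fun t => t ∈ A) (2 ^ (k + 1)) : ℝ) /
        ((2 ^ (k + 1) : ℕ) : ℝ))) atTop (𝓝 0) := by
      have h2 : Tendsto (fun k : ℕ => 2 ^ (k + 1)) atTop (atTop : Filter ℕ) :=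
        (tendsto_pow_atTop_atTop_of_one_lt (by norm_num)).comp (tendsto_add_atTop_nat 1)
      have := (h.comp h2).const_mul 2
      simpa using this
    refine squeeze_zero (fun k => by positivity) (fun k => ?_) h1
    have h3 : (blk A k : ℝ) ≤ (Nat.count (fun t => t ∈ A) (2 ^ (k + 1)) : ℝ) := by
      rw [count_pow_succ]; push_cast; linarith [Nat.cast_nonneg (α := ℝ) (Nat.count (fun t => t ∈ A) (2 ^ k))]
    have h4 : (0 : ℝ) < 2 ^ k := by positivity
    rw [div_le_iff₀ h4]
    have h5 : 2 * ((Nat.count (fun t => t ∈ A) (2 ^ (k + 1)) : ℝ) / ((2 ^ (k + 1) : ℕ) : ℝ)) * 2 ^ k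
        = (Nat.count (fun t => t ∈ A) (2 ^ (k + 1)) : ℝ) := by
      push_cast
      have h6 : (2 : ℝ) ^ (k + 1) = 2 * 2 ^ k := by ring
      rw [h6]
      field_simp
    rw [h5]; exact h3
  · intro h
    rw [Metric.tendsto_atTop] at h ⊢
    intro ε hε
    obtain ⟨K, hK⟩ := h (ε / 4) (by positivity)
    have hK' : ∀ k ≥ K, (blk A k : ℝ) ≤ ε / 4 * 2 ^ k := by
      intro k hk
      have := hK k hk
      rw [Real.dist_eq, sub_zero, abs_of_nonneg (by positivity), div_lt_iff₀ (by positivity)] at this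
      exact this.le
    have hM : ∀ j, (Nat.count (fun t => t ∈ A) (2 ^ (K + j)) : ℝ) ≤ 2 ^ K + ε / 4 * 2 ^ (K + j) := by
      intro j
      induction j with
      | zero =>
        have : (Nat.count (fun t => t ∈ A) (2 ^ (K + 0)) : ℝ) ≤ ((2 ^ K : ℕ) : ℝ) := by
          rw [add_zero]
          exact_mod_cast Nat.count_le (fun t => t ∈ A)
        push_cast at this
        have h6 : 0 ≤ ε / 4 * 2 ^ (K + 0) := by positivity
        linarith
      | succ j ih =>
        have h7 := hK' (K + j) (by omega)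
        have : K + (j + 1) = (K + j) + 1 := by ring
        rw [this, count_pow_succ, pow_succ]
        push_cast
        linarith
    obtain ⟨N, hN⟩ := exists_nat_gt (2 ^ K / (ε / 4) : ℝ)
    refine ⟨max N (2 ^ K + 1), fun n hn => ?_⟩
    have hnN : N ≤ n := le_trans (le_max_left _ _) hn
    have hnK : 2 ^ K < n := lt_of_lt_of_le (Nat.lt_succ_self _) (le_trans (le_max_right _ _) hn)
    have hn0 : (0 : ℝ) < n := by
      exact_mod_cast lt_of_le_of_lt (Nat.zero_le _) hnK
    rw [Real.dist_eq, sub_zero, abs_of_nonneg (by positivity), div_lt_iff₀ hn0]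
    have hn0' : n ≠ 0 := by
      rintro rfl; simp at hn0
    set m := Nat.log 2 n with hm
    have hm1 : 2 ^ m ≤ n := Nat.pow_log_le_self 2 hn0'
    have hm2 : n < 2 ^ (m + 1) := Nat.lt_pow_succ_log_self (by norm_num) n
    have hKm : K ≤ m := by
      have : 2 ^ K < 2 ^ (m + 1) := hnK.trans hm2
      have := (Nat.pow_lt_pow_iff_right (by norm_num : 1 < 2)).1 this
      omega
    obtain ⟨j, hj⟩ := Nat.exists_eq_add_of_le hKm
    have h8 := hM (j + 1)
    have h9 : K + (j + 1) = m + 1 := by omega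
    rw [h9] at h8
    have h10 : (Nat.count (fun t => t ∈ A) n : ℝ) ≤ Nat.count (fun t => t ∈ A) (2 ^ (m + 1)) := by
      exact_mod_cast Nat.count_monotone _ hm2.le
    have h11 : (2 : ℝ) ^ (m + 1) ≤ 2 * n := by
      rw [pow_succ]
      have : (2 : ℝ) ^ m ≤ n := by exact_mod_cast hm1
      linarith
    have h12 : (2 : ℝ) ^ K < ε / 4 * n := by
      have : (2 : ℝ) ^ K / (ε / 4) < n := lt_of_lt_of_le hN (by exact_mod_cast hnN)
      rw [div_lt_iff₀ (by positivity)] at this
      linarith
    have h13 : ε / 4 * 2 ^ (m + 1) ≤ ε / 4 * (2 * n) := by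
      apply mul_le_mul_of_nonneg_left h11 (by positivity)
    nlinarith

/-! ### `Z` is an ideal -/

theorem densityZero_isIdeal : IsIdeal densityZero where
  union_mem := by
    intro A B hA hB
    unfold densityZero at *
    simp only [Set.mem_ofPred_eq] at *
    have h := hA.add hB
    rw [add_zero] at h
    refine squeeze_zero (fun n => by positivity) (fun n => ?_) h
    rw [← add_div]
    apply div_le_div_of_nonneg_right _ (Nat.cast_nonneg n)
    have : (A ∪ B) ∩ Set.Iio n = (A ∩ Set.Iio n) ∪ (B ∩ Set.Iio n) := by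
      rw [Set.union_inter_distrib_right]
    rw [this]
    exact_mod_cast Set.ncard_union_le _ _
  subset_mem := by
    intro A B hA hBA
    unfold densityZero at *
    simp only [Set.mem_ofPred_eq] at *
    refine squeeze_zero (fun n => by positivity) (fun n => ?_) hA
    apply div_le_div_of_nonneg_right _ (Nat.cast_nonneg n)
    have : (B ∩ Set.Iio n).ncard ≤ (A ∩ Set.Iio n).ncard :=
      Set.ncard_le_ncard (Set.inter_subset_inter_left _ hBA) ((Set.finite_Iio n).inter_of_right _)
    exact_mod_cast this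
  univ_notMem := by
    intro h
    unfold densityZero at h
    simp only [Set.mem_ofPred_eq] at h
    have h1 : Tendsto (fun n : ℕ => ((Set.univ ∩ Set.Iio n).ncard : ℝ) / (n : ℝ)) atTop (𝓝 1) := by
      apply Tendsto.congr' _ tendsto_const_nhds
      filter_upwards [eventually_gt_atTop 0] with n hn
      have h2 : (Set.univ ∩ Set.Iio n).ncard = n := by
        classical
        rw [ncard_eq_count]
        rw [Nat.count_eq_card_filter_range]
        simp
      rw [h2]
      field_simp
    have := tendsto_nhds_unique h h1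
    norm_num at this
  finite_mem := by
    intro A hA
    unfold densityZero
    simp only [Set.mem_ofPred_eq]
    have h1 : Tendsto (fun n : ℕ => (A.ncard : ℝ) / (n : ℝ)) atTop (𝓝 0) :=
      tendsto_const_div_atTop_nhds_zero_nat _
    refine squeeze_zero (fun n => by positivity) (fun n => ?_) h1
    apply div_le_div_of_nonneg_right _ (Nat.cast_nonneg n)
    exact_mod_cast Set.ncard_le_ncard Set.inter_subset_left hA


/-! ### The ideal -/

/-- The projection: `proj y = n` exactly when `4^n ≤ y < 4^(n+1)` (for positive `y`). -/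
def proj (y : ℕ) : ℕ := Nat.log 4 y

/-- The ideal of all `A` such that the set of `n` whose fibre meets `A` has density zero. -/
def theIdeal : Set (Set ℕ) := {A | proj '' A ∈ densityZero}

theorem proj_surjective : Function.Surjective proj := fun n => ⟨4 ^ n, Nat.log_pow (by norm_num) n⟩

theorem proj_lt {y n : ℕ} (h : proj y = n) : y < 4 ^ (n + 1) := by
  unfold proj at h
  subst h
  exact Nat.lt_pow_succ_log_self (by norm_num) y

theorem proj_finiteToOne : FiniteToOne proj := by
  intro n
  refine (Set.finite_Iio (4 ^ (n + 1))).subset ?_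
  intro y hy
  exact proj_lt hy

theorem theIdeal_isIdeal : IsIdeal theIdeal where
  union_mem := by
    intro A B hA hB
    show proj '' (A ∪ B) ∈ densityZero
    rw [Set.image_union]
    exact densityZero_isIdeal.union_mem _ _ hA hB
  subset_mem := by
    intro A B hA hBA
    exact densityZero_isIdeal.subset_mem _ _ hA (Set.image_mono hBA)
  univ_notMem := by
    intro h
    have h' : proj '' Set.univ ∈ densityZero := h
    rw [Set.image_univ, proj_surjective.range_eq] at h'
    exact densityZero_isIdeal.univ_notMem h'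
  finite_mem := by
    intro A hA
    exact densityZero_isIdeal.finite_mem _ (hA.image _)

theorem densityZero_le_theIdeal : RudinBlassLE densityZero theIdeal := by
  refine ⟨proj, proj_finiteToOne, fun A => ?_⟩
  show A ∈ densityZero ↔ proj '' (proj ⁻¹' A) ∈ densityZero
  rw [Set.image_preimage_eq _ proj_surjective]

/-! ### Enumeration of the selectors -/

/-- the finite set with code `m` -/
def code (m : ℕ) : Finset ℕ := (Denumerable.eqv (Finset ℕ)).symm (Nat.unpair m).2

/-- the level of `m` -/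
def lvl (m : ℕ) : ℕ :=
  if code m ⊆ Finset.range (4 ^ 2 ^ ((Nat.unpair m).1 + 1)) then (Nat.unpair m).1 else m

theorem lvl_le (m : ℕ) : lvl m ≤ m := by
  unfold lvl
  split_ifs
  · exact Nat.unpair_left_le m
  · exact le_rfl

open Classical in
/-- an element of `G` in the fibre of `n` if there is one, otherwise `4^n` -/
noncomputable def pick (G : Finset ℕ) (n : ℕ) : ℕ :=
  if h : ∃ y ∈ G, proj y = n then h.choose else 4 ^ n

theorem proj_pick (G : Finset ℕ) (n : ℕ) : proj (pick G n) = n := by
  unfold pick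
  split_ifs with h
  · exact h.choose_spec.2
  · exact Nat.log_pow (by norm_num) n

theorem pick_mem {G : Finset ℕ} {n : ℕ} (h : ∃ y ∈ G, proj y = n) : pick G n ∈ G := by
  unfold pick
  rw [dif_pos h]
  exact h.choose_spec.1

/-- level position -/
def pos (x : ℕ) : ℕ := 2 ^ lvl (Nat.log 2 x) + x % 2 ^ lvl (Nat.log 2 x)

/-- the reduction from the ideal to `Z` -/
noncomputable def red (x : ℕ) : ℕ := pick (code (Nat.log 2 x)) (pos x)

theorem proj_red (x : ℕ) : proj (red x) = pos x := proj_pick _ _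

theorem log_pos (x : ℕ) : Nat.log 2 (pos x) = lvl (Nat.log 2 x) := by
  unfold pos
  set k := lvl (Nat.log 2 x)
  have h := Nat.mod_lt x (y := 2 ^ k) (by positivity)
  rw [Nat.log_eq_iff (Or.inr ⟨by norm_num, by positivity⟩)]
  constructor
  · omega
  · rw [pow_succ]; omega

theorem lvl_finite (k : ℕ) : {m | lvl m = k}.Finite := by
  classical
  refine (Finset.finite_toSet (((Finset.range (4 ^ 2 ^ (k + 1))).powerset.image
      (fun G => Nat.pair k (Denumerable.eqv (Finset ℕ) G))) ∪ {k} : Finset ℕ)).subset ?_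
  intro m hm
  simp only [Set.mem_ofPred_eq] at hm
  unfold lvl at hm
  split_ifs at hm with h
  · simp only [Finset.coe_union, Finset.coe_image, Set.mem_union, Set.mem_image, Finset.mem_coe]
    left
    refine ⟨code m, ?_, ?_⟩
    · rw [Finset.mem_powerset, ← hm]; exact h
    · unfold code
      rw [Equiv.apply_symm_apply, ← hm, Nat.pair_unpair]
  · simp [hm]

theorem red_finiteToOne : FiniteToOne red := by
  intro y
  have h := lvl_finite (Nat.log 2 (proj y))
  obtain ⟨N, hN⟩ := h.bddAbove
  refine (Set.finite_Iio (2 ^ (N + 1))).subset ?_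
  intro x hx
  have hx' : red x = y := hx
  have h1 : lvl (Nat.log 2 x) = Nat.log 2 (proj y) := by
    rw [← hx', proj_red, log_pos]
  have h2 : Nat.log 2 x ≤ N := hN h1
  have h3 : x < 2 ^ (Nat.log 2 x + 1) := Nat.lt_pow_succ_log_self (by norm_num) x
  exact lt_of_lt_of_le h3 (Nat.pow_le_pow_right (by norm_num) (by omega))

theorem lvl_tendsto : Tendsto lvl atTop atTop := by
  rw [← Nat.cofinite_eq_atTop]
  apply Tendsto.cofinite_of_finite_preimage_singleton
  intro k
  exact lvl_finite k

open Classical in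
theorem count_mul_periodic (p : ℕ → Prop) (a M : ℕ) (hp : Function.Periodic p a) :
    Nat.count p (M * a) = M * Nat.count p a := by
  induction M with
  | zero => simp
  | succ M ih =>
    rw [Nat.succ_mul, Nat.succ_mul, Nat.count_add, ih]
    congr 1
    apply le_antisymm
    · apply Nat.count_mono_left
      intro k _ hk
      have := hp.nat_mul M k
      have h2 : k + M * a = M * a + k := by ring
      simp only [Nat.cast_id] at this
      rw [h2] at this
      rwa [this] at hk
    · apply Nat.count_mono_left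
      intro k _ hk
      have := hp.nat_mul M k
      have h2 : k + M * a = M * a + k := by ring
      simp only [Nat.cast_id] at this
      rw [h2] at this
      rwa [this]

open Classical in
theorem blk_preimage (A : Set ℕ) (m : ℕ) :
    (blk (red ⁻¹' A) m : ℝ) / 2 ^ m =
      (Nat.count (fun r => pick (code m) (2 ^ lvl m + r) ∈ A) (2 ^ lvl m) : ℝ) / 2 ^ lvl m := by
  set k := lvl m with hk
  have hkm : k ≤ m := lvl_le m
  obtain ⟨j, hj⟩ := Nat.exists_eq_add_of_le hkm
  have h1 : blk (red ⁻¹' A) m =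
      Nat.count (fun t => pick (code m) (2 ^ k + t % 2 ^ k) ∈ A) (2 ^ m) := by
    unfold blk
    rw [Nat.count_eq_card_filter_range, Nat.count_eq_card_filter_range]
    congr 1
    apply Finset.filter_congr
    intro t ht
    rw [Finset.mem_range] at ht
    have h2 : Nat.log 2 (2 ^ m + t) = m := by
      rw [Nat.log_eq_iff (Or.inr ⟨by norm_num, by positivity⟩)]
      constructor
      · omega
      · rw [pow_succ]; omega
    have h3 : (2 ^ m + t) % 2 ^ k = t % 2 ^ k := by
      rw [hj, pow_add, Nat.mul_add_mod]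
    simp only [Set.mem_preimage, red, pos, h2, ← hk, h3]
  have h4 : Nat.count (fun t => pick (code m) (2 ^ k + t % 2 ^ k) ∈ A) (2 ^ m) =
      2 ^ j * Nat.count (fun r => pick (code m) (2 ^ k + r) ∈ A) (2 ^ k) := by
    have h5 : 2 ^ m = 2 ^ j * 2 ^ k := by rw [hj, pow_add]; ring
    rw [h5, count_mul_periodic]
    · congr 1
      rw [Nat.count_eq_card_filter_range, Nat.count_eq_card_filter_range]
      congr 1
      apply Finset.filter_congr
      intro t ht
      rw [Finset.mem_range] at ht
      rw [Nat.mod_eq_of_lt ht]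
    · intro t
      simp
  rw [h1, h4]
  push_cast
  have h6 : (2 : ℝ) ^ m = 2 ^ j * 2 ^ k := by rw [hj, pow_add]; ring
  rw [h6]
  have h7 : (2 : ℝ) ^ j ≠ 0 := by positivity
  rw [mul_div_mul_left _ _ h7]

theorem theIdeal_le_densityZero : RudinBlassLE theIdeal densityZero := by
  classical
  refine ⟨red, red_finiteToOne, fun A => ?_⟩
  show proj '' A ∈ densityZero ↔ red ⁻¹' A ∈ densityZero
  rw [mem_densityZero_iff, mem_densityZero_iff]
  constructor
  · intro h
    have h1 := h.comp lvl_tendsto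
    refine squeeze_zero (fun k => by positivity) (fun m => ?_) h1
    rw [blk_preimage]
    simp only [Function.comp]
    apply div_le_div_of_nonneg_right _ (by positivity)
    unfold blk
    have : Nat.count (fun r => pick (code m) (2 ^ lvl m + r) ∈ A) (2 ^ lvl m) ≤
        Nat.count (fun t => 2 ^ lvl m + t ∈ proj '' A) (2 ^ lvl m) := by
      apply Nat.count_mono_left
      intro r _ hr
      exact ⟨_, hr, proj_pick _ _⟩
    exact_mod_cast this
  · intro h
    let G : ℕ → Finset ℕ := fun k => (Finset.range (4 ^ 2 ^ (k + 1))).filter (· ∈ A)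
    let M : ℕ → ℕ := fun k => Nat.pair k (Denumerable.eqv (Finset ℕ) (G k))
    have hcode : ∀ k, code (M k) = G k := by
      intro k
      simp only [code, M, Nat.unpair_pair]
      exact Equiv.symm_apply_apply _ _
    have hlvl : ∀ k, lvl (M k) = k := by
      intro k
      unfold lvl
      rw [hcode]
      simp only [M, Nat.unpair_pair]
      rw [if_pos (Finset.filter_subset _ _)]
    have hM : Tendsto M atTop atTop :=
      tendsto_atTop_mono (fun k => Nat.left_le_pair k _) tendsto_id
    have h1 := h.comp hM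
    refine squeeze_zero (fun k => by positivity) (fun k => ?_) h1
    simp only [Function.comp]
    rw [blk_preimage, hcode, hlvl]
    apply div_le_div_of_nonneg_right _ (by positivity)
    unfold blk
    have : Nat.count (fun t => 2 ^ k + t ∈ proj '' A) (2 ^ k) ≤
        Nat.count (fun r => pick (G k) (2 ^ k + r) ∈ A) (2 ^ k) := by
      rw [Nat.count_eq_card_filter_range, Nat.count_eq_card_filter_range]
      apply Finset.card_le_card
      intro r hr
      rw [Finset.mem_filter, Finset.mem_range] at hr ⊢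
      refine ⟨hr.1, ?_⟩
      obtain ⟨y, hyA, hy⟩ := hr.2
      have hyG : y ∈ G k := by
        simp only [G, Finset.mem_filter, Finset.mem_range]
        refine ⟨?_, hyA⟩
        have h2 := proj_lt hy
        refine lt_of_lt_of_le h2 (Nat.pow_le_pow_right (by norm_num) ?_)
        rw [pow_succ]; omega
      have h3 := pick_mem (G := G k) (n := 2 ^ k + r) ⟨y, hyG, hy⟩
      simp only [G, Finset.mem_filter] at h3
      exact h3.2
    exact_mod_cast this


/-! ### No isomorphic copy is an Erdos-Ulam ideal -/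

/-- partial sums of the weight -/
noncomputable def psum (f : ℕ → ℝ) (n : ℕ) : ℝ := ∑ i ∈ range n, f i

theorem psum_succ (f : ℕ → ℝ) (n : ℕ) : psum f (n + 1) = psum f n + f n :=
  Finset.sum_range_succ _ _

theorem psum_mono {f : ℕ → ℝ} (hf : ∀ i, 0 ≤ f i) : Monotone (psum f) :=
  monotone_nat_of_le_succ fun n => by rw [psum_succ]; linarith [hf n]

theorem psum_nonneg {f : ℕ → ℝ} (hf : ∀ i, 0 ≤ f i) (n : ℕ) : 0 ≤ psum f n :=
  Finset.sum_nonneg fun i _ => hf i

theorem card_bound {f : ℕ → ℝ} (hf : ∀ i, 0 ≤ f i) (X : Finset ℕ) (P c : ℝ) (hc : 0 < c)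
    (h : ∀ x ∈ X, psum f (x + 1) < 2 * P ∧ P < 2 * psum f (x + 1) ∧ c * psum f (x + 1) < f x) :
    (X.card : ℝ) * c ≤ 4 := by
  rcases X.eq_empty_or_nonempty with rfl | hX
  · simp
  · have hmax := h _ (X.max'_mem hX)
    have hP : 0 < P := by linarith
    have h1 : ∑ x ∈ X, f x ≤ psum f (X.max' hX + 1) := by
      unfold psum
      apply Finset.sum_le_sum_of_subset_of_nonneg
      · intro x hx
        rw [Finset.mem_range]
        have := X.le_max' x hx
        omega
      · intro i _ _
        exact hf i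
    have h2 : ∑ x ∈ X, c * (P / 2) ≤ ∑ x ∈ X, f x := by
      apply Finset.sum_le_sum
      intro x hx
      obtain ⟨_, h3, h4⟩ := h x hx
      have : c * (P / 2) ≤ c * psum f (x + 1) := by
        apply mul_le_mul_of_nonneg_left _ hc.le
        linarith
      linarith
    rw [Finset.sum_const, nsmul_eq_mul] at h2
    have h3 : (X.card : ℝ) * (c * (P / 2)) < 2 * P := by linarith [hmax.1]
    have h4 : ((X.card : ℝ) * c) * P < 4 * P := by nlinarith
    exact (lt_of_mul_lt_mul_right h4 hP.le).le

theorem exists_choice {f : ℕ → ℝ} (hf : ∀ i, 0 ≤ f i) (n : ℕ) (y : ℕ → ℕ) (S : Finset ℕ)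
    (hS : n * 2 ^ (n + 2) < S.card) :
    ∃ x ∈ S, (∀ i < n, 2 * psum f (y i + 1) ≤ psum f (x + 1) ∨
      2 * psum f (x + 1) ≤ psum f (y i + 1)) ∨ f x ≤ (1 / 2) ^ n * psum f (x + 1) := by
  classical
  by_contra hcon
  push Not at hcon
  have hsub : S ⊆ (Finset.range n).biUnion fun i => S.filter fun x =>
      psum f (x + 1) < 2 * psum f (y i + 1) ∧ psum f (y i + 1) < 2 * psum f (x + 1) ∧
        (1 / 2) ^ n * psum f (x + 1) < f x := by
    intro x hx
    obtain ⟨⟨i, hi, h1, h2⟩, h3⟩ := hcon x hx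
    rw [Finset.mem_biUnion]
    exact ⟨i, Finset.mem_range.2 hi, Finset.mem_filter.2 ⟨hx, h1, h2, h3⟩⟩
  have hcard := Finset.card_le_card hsub
  have hcard2 := hcard.trans Finset.card_biUnion_le
  have hb : ∀ i ∈ Finset.range n, (S.filter fun x =>
      psum f (x + 1) < 2 * psum f (y i + 1) ∧ psum f (y i + 1) < 2 * psum f (x + 1) ∧
        (1 / 2) ^ n * psum f (x + 1) < f x).card ≤ 2 ^ (n + 2) := by
    intro i _
    have key : ∀ X : Finset ℕ, (X.card : ℝ) * (1 / 2) ^ n ≤ 4 → X.card ≤ 2 ^ (n + 2) := by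
      intro X h4
      have h5 : (X.card : ℝ) ≤ ((2 ^ (n + 2) : ℕ) : ℝ) := by
        push_cast
        rw [one_div, inv_pow, ← div_eq_mul_inv, div_le_iff₀ (by positivity)] at h4
        rw [pow_add]
        linarith
      exact_mod_cast h5
    exact key _ (card_bound hf _ (psum f (y i + 1)) ((1 / 2) ^ n) (by positivity)
        (fun x hx => (Finset.mem_filter.1 hx).2))
  have := Finset.sum_le_card_nsmul _ _ _ hb
  rw [Finset.card_range, smul_eq_mul] at this
  omega

theorem exists_seq {f : ℕ → ℝ} (hf : ∀ i, 0 ≤ f i) (S : ℕ → Finset ℕ)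
    (hS : ∀ n, n * 2 ^ (n + 2) < (S n).card) :
    ∃ x : ℕ → ℕ, ∀ n, x n ∈ S n ∧ ((∀ i < n, 2 * psum f (x i + 1) ≤ psum f (x n + 1) ∨
      2 * psum f (x n + 1) ≤ psum f (x i + 1)) ∨ f (x n) ≤ (1 / 2) ^ n * psum f (x n + 1)) := by
  have h1 : ∀ n (y : ℕ → ℕ), ∃ x, x ∈ S n ∧ ((∀ i < n, 2 * psum f (y i + 1) ≤ psum f (x + 1) ∨
      2 * psum f (x + 1) ≤ psum f (y i + 1)) ∨ f x ≤ (1 / 2) ^ n * psum f (x + 1)) := by
    intro n y
    obtain ⟨x, hx, h⟩ := exists_choice hf n y (S n) (hS n)
    exact ⟨x, hx, h⟩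
  choose g hg using h1
  let st : ℕ → (ℕ → ℕ) := fun n => Nat.rec (fun _ => 0) (fun n y => Function.update y n (g n y)) n
  have hst : ∀ n, st (n + 1) = Function.update (st n) n (g n (st n)) := fun n => rfl
  have hstab : ∀ i n, i < n → st n i = st (i + 1) i := by
    intro i n hin
    induction n with
    | zero => omega
    | succ n ih =>
      rcases Nat.lt_succ_iff_lt_or_eq.1 hin with h | h
      · rw [hst, Function.update_of_ne (by omega), ih h]
      · rw [h]
  have hx : ∀ n, st (n + 1) n = g n (st n) := fun n => by rw [hst, Function.update_self]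
  generalize hxdef : (fun n => st (n + 1) n) = x
  have hx1 : ∀ n, x n = g n (st n) := fun n => by rw [← hxdef]; exact hx n
  have hx2 : ∀ i n, i < n → st n i = x i := fun i n h => by rw [← hxdef]; exact hstab i n h
  refine ⟨x, fun n => ?_⟩
  have h3 := hg n (st n)
  rw [← hx1 n] at h3
  refine ⟨h3.1, ?_⟩
  rcases h3.2 with h4 | h4
  · left
    intro i hi
    have h5 := h4 i hi
    rwa [hx2 i n hi] at h5
  · right
    exact h4

theorem geom_bound {f : ℕ → ℝ} (hf : ∀ i, 0 ≤ f i) (T : Set ℕ)
    (hT : ∀ x ∈ T, ∀ y ∈ T, x < y → 2 * psum f (x + 1) ≤ psum f (y + 1)) (m : ℕ) :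
    ∀ B : ℝ, 0 ≤ B → (∀ y ∈ T, y < m → 2 * psum f (y + 1) ≤ B) →
      ∑ i ∈ range m, T.indicator (fun i => psum f (i + 1)) i ≤ B := by
  classical
  induction m with
  | zero => intro B hB _; simpa using hB
  | succ m ih =>
    intro B hB h
    rw [Finset.sum_range_succ]
    by_cases hm : m ∈ T
    · rw [Set.indicator_of_mem hm]
      have h1 := ih (psum f (m + 1)) (psum_nonneg hf _) (fun y hy hym => hT y hy m hm hym)
      have h2 := h m hm (Nat.lt_succ_self m)
      linarith
    · rw [Set.indicator_of_notMem hm, add_zero]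
      exact ih B hB (fun y hy hym => h y hy (by omega))

theorem sparse_mem {f : ℕ → ℝ} (hf : IsEUWeight f) (T : Set ℕ)
    (hT : ∀ x ∈ T, ∀ y ∈ T, x < y → 2 * psum f (x + 1) ≤ psum f (y + 1)) :
    T ∈ erdosUlam f := by
  classical
  show Tendsto (fun n : ℕ => (∑ i ∈ range n, T.indicator f i) / psum f n) atTop (𝓝 0)
  have hnn := hf.nonneg
  rw [Metric.tendsto_atTop]
  intro ε hε
  have h1 := hf.ratio_tendsto
  rw [Metric.tendsto_atTop] at h1
  obtain ⟨M, hM⟩ := h1 (ε / 4) (by positivity)
  have hM' : ∀ i ≥ M, f i ≤ ε / 4 * psum f (i + 1) := by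
    intro i hi
    have h2 := hM i hi
    rw [Real.dist_eq, sub_zero] at h2
    have h3 := lt_of_le_of_lt (le_abs_self _) h2
    have h4 : 0 ≤ psum f (i + 1) := psum_nonneg hnn _
    rcases h4.eq_or_lt with h5 | h5
    · have h6 : psum f (i + 1) = psum f i + f i := psum_succ f i
      have h7 := psum_nonneg hnn i
      have h8 := hnn i
      rw [← h5]; linarith
    · have h6 : f i / psum f (i + 1) < ε / 4 := h3
      rw [div_lt_iff₀ h5] at h6
      exact h6.le
  have h2 : ∀ᶠ m in atTop, psum f M / (ε / 4) + 1 ≤ psum f m :=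
    (hf.sum_tendsto.eventually_ge_atTop _)
  obtain ⟨N, hN⟩ := Filter.eventually_atTop.1 h2
  refine ⟨N, fun m hm => ?_⟩
  have h3 := hN m hm
  have hpos : 0 < psum f m := by
    have : 0 ≤ psum f M / (ε / 4) := div_nonneg (psum_nonneg hnn _) (by positivity)
    linarith
  have h4 : psum f M ≤ ε / 4 * psum f m := by
    have : psum f M / (ε / 4) ≤ psum f m := by linarith
    rw [div_le_iff₀ (by positivity)] at this
    linarith
  have h5 : ∑ i ∈ range m, T.indicator f i ≤
      ∑ i ∈ range m, ((if i < M then f i else 0) +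
        ε / 4 * T.indicator (fun i => psum f (i + 1)) i) := by
    apply Finset.sum_le_sum
    intro i _
    by_cases hi : i ∈ T
    · rw [Set.indicator_of_mem hi, Set.indicator_of_mem hi]
      have h6 := psum_nonneg hnn (i + 1)
      split_ifs with h7
      · have : 0 ≤ ε / 4 * psum f (i + 1) := by positivity
        linarith
      · have := hM' i (by omega)
        linarith
    · rw [Set.indicator_of_notMem hi, Set.indicator_of_notMem hi]
      have := hnn i
      split_ifs <;> simp [this]
  rw [Finset.sum_add_distrib, ← Finset.mul_sum] at h5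
  have h6 : ∑ i ∈ range m, (if i < M then f i else 0) ≤ psum f M := by
    rw [← Finset.sum_filter]
    unfold psum
    apply Finset.sum_le_sum_of_subset_of_nonneg
    · intro i hi
      rw [Finset.mem_filter] at hi
      exact Finset.mem_range.2 hi.2
    · intro i _ _
      exact hnn i
  have h7 : ∑ i ∈ range m, T.indicator (fun i => psum f (i + 1)) i ≤ 2 * psum f m := by
    apply geom_bound hnn T hT m _ (by positivity)
    intro y _ hym
    have := psum_mono hnn (Nat.succ_le_of_lt hym)
    simp only [Nat.succ_eq_add_one] at this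
    linarith
  have h8 : 0 ≤ ∑ i ∈ range m, T.indicator f i :=
    Finset.sum_nonneg fun i _ => Set.indicator_nonneg (fun i _ => hnn i) i
  rw [Real.dist_eq, sub_zero, abs_of_nonneg (div_nonneg h8 hpos.le), div_lt_iff₀ hpos]
  have h9 : ε / 4 * ∑ i ∈ range m, T.indicator (fun i => psum f (i + 1)) i ≤
      ε / 4 * (2 * psum f m) := mul_le_mul_of_nonneg_left h7 (by positivity)
  nlinarith

theorem summable_mem {f : ℕ → ℝ} (hf : IsEUWeight f) (x : ℕ → ℕ) (T : Set ℕ)
    (hT : ∀ t ∈ T, ∃ n, x n = t ∧ f t ≤ (1 / 2) ^ n * psum f (t + 1)) :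
    T ∈ erdosUlam f := by
  classical
  show Tendsto (fun n : ℕ => (∑ i ∈ range n, T.indicator f i) / psum f n) atTop (𝓝 0)
  have hnn := hf.nonneg
  choose! ν hν1 hν2 using hT
  let g : ℕ → ℕ → ℝ := fun m n =>
    if (x n < m ∧ f (x n) ≤ (1 / 2) ^ n * psum f (x n + 1)) then f (x n) / psum f m else 0
  have hg0 : ∀ m n, 0 ≤ g m n := by
    intro m n
    simp only [g]
    split_ifs
    · exact div_nonneg (hnn _) (psum_nonneg hnn _)
    · exact le_rfl
  have hgb : ∀ m n, g m n ≤ (1 / 2) ^ n := by
    intro m n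
    simp only [g]
    split_ifs with h
    · have h1 : psum f (x n + 1) ≤ psum f m := psum_mono hnn h.1
      rcases (psum_nonneg hnn m).eq_or_lt with h2 | h2
      · rw [← h2, div_zero]; positivity
      · rw [div_le_iff₀ h2]
        have : (1 / 2 : ℝ) ^ n * psum f (x n + 1) ≤ (1 / 2) ^ n * psum f m :=
          mul_le_mul_of_nonneg_left h1 (by positivity)
        linarith [h.2]
    · positivity
  have hsumm : Summable (fun n : ℕ => (1 / 2 : ℝ) ^ n) := summable_geometric_two
  have hlim : Tendsto (fun m => ∑' n, g m n) atTop (𝓝 (∑' _ : ℕ, (0 : ℝ))) := by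
    apply tendsto_tsum_of_dominated_convergence hsumm
    · intro n
      have h1 : Tendsto (fun m => f (x n) / psum f m) atTop (𝓝 0) :=
        hf.sum_tendsto.const_div_atTop _
      refine squeeze_zero (fun m => hg0 m n) (fun m => ?_) h1
      simp only [g]
      split_ifs
      · exact le_rfl
      · exact div_nonneg (hnn _) (psum_nonneg hnn _)
    · filter_upwards with m n
      rw [Real.norm_of_nonneg (hg0 m n)]
      exact hgb m n
  rw [tsum_zero] at hlim
  refine squeeze_zero (fun m => ?_) (fun m => ?_) hlim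
  · exact div_nonneg (Finset.sum_nonneg fun i _ => Set.indicator_nonneg (fun i _ => hnn i) i)
      (psum_nonneg hnn m)
  · have hgs : Summable (g m) := Summable.of_nonneg_of_le (hg0 m) (hgb m) hsumm
    have h1 : ∑ i ∈ range m, T.indicator f i = ∑ i ∈ (range m).filter (· ∈ T), f i := by
      rw [Finset.sum_filter]
      apply Finset.sum_congr rfl
      intro i _
      rw [Set.indicator_apply]
    rw [h1, Finset.sum_div]
    have hinj : Set.InjOn ν ((range m).filter (· ∈ T)) := by
      intro a ha b hb hab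
      have ha' := (Finset.mem_filter.1 ha).2
      have hb' := (Finset.mem_filter.1 hb).2
      rw [← hν1 a ha', ← hν1 b hb', hab]
    have h2 : ∑ i ∈ (range m).filter (· ∈ T), f i / psum f m =
        ∑ n ∈ ((range m).filter (· ∈ T)).image ν, g m n := by
      rw [Finset.sum_image hinj]
      apply Finset.sum_congr rfl
      intro i hi
      rw [Finset.mem_filter, Finset.mem_range] at hi
      simp only [g]
      rw [hν1 i hi.2, if_pos ⟨hi.1, hν2 i hi.2⟩]
    rw [h2]
    exact hgs.sum_le_tsum _ (fun n _ => hg0 m n)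

theorem erdosUlam_union {f : ℕ → ℝ} (hf : IsEUWeight f) {A B : Set ℕ}
    (hA : A ∈ erdosUlam f) (hB : B ∈ erdosUlam f) : A ∪ B ∈ erdosUlam f := by
  classical
  have hnn := hf.nonneg
  have hA' : Tendsto (fun n : ℕ => (∑ i ∈ range n, A.indicator f i) / psum f n) atTop (𝓝 0) := hA
  have hB' : Tendsto (fun n : ℕ => (∑ i ∈ range n, B.indicator f i) / psum f n) atTop (𝓝 0) := hB
  show Tendsto (fun n : ℕ => (∑ i ∈ range n, (A ∪ B).indicator f i) / psum f n) atTop (𝓝 0)
  have h := hA'.add hB'
  rw [add_zero] at h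
  refine squeeze_zero (fun m => ?_) (fun m => ?_) h
  · exact div_nonneg (Finset.sum_nonneg fun i _ => Set.indicator_nonneg (fun i _ => hnn i) i)
      (psum_nonneg hnn m)
  · rw [← add_div, ← Finset.sum_add_distrib]
    apply div_le_div_of_nonneg_right _ (psum_nonneg hnn m)
    apply Finset.sum_le_sum
    intro i _
    have := hnn i
    by_cases h1 : i ∈ A <;> by_cases h2 : i ∈ B <;> simp [h1, h2, this]

theorem four_mul_lt (n : ℕ) : 4 * n < 3 * 2 ^ n := by
  induction n with
  | zero => norm_num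
  | succ n ih =>
    rcases n with _ | n
    · norm_num
    · have h0 : (2 : ℕ) ^ (n + 1 + 1) = 2 * 2 ^ (n + 1) := by ring
      have h1 : (2 : ℕ) ^ (n + 1) = 2 * 2 ^ n := by ring
      have h2 : 1 ≤ 2 ^ n := Nat.one_le_two_pow
      omega

theorem not_isErdosUlam (σ : Equiv.Perm ℕ) : ¬ IsErdosUlam {A | σ ⁻¹' A ∈ theIdeal} := by
  classical
  rintro ⟨f, hf, hI⟩
  have hnn := hf.nonneg
  let S : ℕ → Finset ℕ := fun n => (Finset.Ico (4 ^ n) (4 ^ (n + 1))).image σ
  have hScard : ∀ n, (S n).card = 3 * 4 ^ n := by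
    intro n
    simp only [S]
    rw [Finset.card_image_of_injective _ σ.injective, Nat.card_Ico, pow_succ]
    omega
  have hS : ∀ n, n * 2 ^ (n + 2) < (S n).card := by
    intro n
    rw [hScard]
    have h1 : (4 : ℕ) ^ n = 2 ^ n * 2 ^ n := by
      rw [← mul_pow]; norm_num
    rw [h1, pow_add]
    have h2 := four_mul_lt n
    have h3 : 0 < 2 ^ n := by positivity
    nlinarith
  obtain ⟨x, hx⟩ := exists_seq hnn S hS
  have hxz : ∀ n, ∃ z, proj z = n ∧ σ z = x n := by
    intro n
    obtain ⟨z, hz, hzx⟩ := Finset.mem_image.1 (hx n).1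
    rw [Finset.mem_Ico] at hz
    refine ⟨z, ?_, hzx⟩
    unfold proj
    rw [Nat.log_eq_iff (Or.inr ⟨by norm_num, ?_⟩)]
    · exact hz
    · have : 0 < 4 ^ n := by positivity
      omega
  have hxinj : Function.Injective x := by
    intro a b hab
    obtain ⟨z, hz1, hz2⟩ := hxz a
    obtain ⟨w, hw1, hw2⟩ := hxz b
    rw [← hz1, ← hw1]
    congr 1
    apply σ.injective
    rw [hz2, hw2, hab]
  let T2 : Set ℕ := {t | ∃ n, x n = t ∧ f t ≤ (1 / 2) ^ n * psum f (t + 1)}
  let T1 : Set ℕ := {t | ∃ n, x n = t ∧ ¬ f t ≤ (1 / 2) ^ n * psum f (t + 1)}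
  have hT2 : T2 ∈ erdosUlam f := summable_mem hf x T2 (fun t ht => ht)
  have hT1 : T1 ∈ erdosUlam f := by
    apply sparse_mem hf
    rintro _ ⟨a, rfl, ha⟩ _ ⟨b, rfl, hb⟩ hab
    have hmono : psum f (x a + 1) ≤ psum f (x b + 1) := psum_mono hnn (by omega)
    have h0 := psum_nonneg hnn (x a + 1)
    have h0' := psum_nonneg hnn (x b + 1)
    have hne : a ≠ b := by rintro rfl; omega
    rcases lt_or_gt_of_ne hne with h | h
    · rcases (hx b).2 with h1 | h1
      · rcases h1 a h with h2 | h2
        · exact h2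
        · linarith
      · exact absurd h1 hb
    · rcases (hx a).2 with h1 | h1
      · rcases h1 b h with h2 | h2
        · linarith
        · exact h2
      · exact absurd h1 ha
  have hT : T1 ∪ T2 ∈ erdosUlam f := erdosUlam_union hf hT1 hT2
  rw [← hI] at hT
  have hT' : proj '' (σ ⁻¹' (T1 ∪ T2)) ∈ densityZero := hT
  have huniv : proj '' (σ ⁻¹' (T1 ∪ T2)) = Set.univ := by
    rw [Set.eq_univ_iff_forall]
    intro n
    obtain ⟨z, hz1, hz2⟩ := hxz n
    refine ⟨z, ?_, hz1⟩
    rw [Set.mem_preimage, hz2]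
    by_cases h : f (x n) ≤ (1 / 2) ^ n * psum f (x n + 1)
    · right; exact ⟨n, rfl, h⟩
    · left; exact ⟨n, rfl, h⟩
  rw [huniv] at hT'
  exact densityZero_isIdeal.univ_notMem hT'

/-- There is an ideal on `ω` that is Rudin-Blass equivalent to the density zero ideal `Z`,
but neither it nor any isomorphic copy of it is an Erdos-Ulam ideal. -/
theorem result : ∃ I : Set (Set ℕ), IsIdeal I ∧ RudinBlassEquiv I densityZero ∧
    ¬ IsErdosUlam I ∧ ∀ σ : Equiv.Perm ℕ, ¬ IsErdosUlam {A | σ ⁻¹' A ∈ I} := by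
  refine ⟨theIdeal, theIdeal_isIdeal, ⟨theIdeal_le_densityZero, densityZero_le_theIdeal⟩, ?_,
    not_isErdosUlam⟩
  exact not_isErdosUlam (Equiv.refl ℕ)

end Pool.Agent.Results.MP_8a0632_lc.NotErdosUlam
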